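import Pool.Agent.Helper24.IA.St

/-! # IA, module IMG: the edges of the second family are those of the first family and of `L` -/

set_option autoImplicit false

namespace Pool.Agent.Helper72.IA24

open Finset
open Pool.Agent.Helper93.IA Pool.Agent.Helper24.IA

/-- Module IMG. -/
theorem hIMG : StIMG := by
  intro O I J K D
  refine ⟨fun e => ⟨?_, ?_⟩, fun e => ⟨?_, ?_⟩, fun e => ⟨?_, ?_⟩⟩
  · rintro ⟨t, rfl⟩
    cases t with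
    | t1 i => exact Or.inr ⟨i, rfl⟩
    | t2 j => exact Or.inl ⟨.h1 j, rfl⟩
    | t3 k =>
      refine Or.inl ⟨.g2 (D.R.symm k), ?_⟩
      have h := D.hR (D.R.symm k)
      rw [Equiv.apply_symm_apply] at h
      simp [eA, tA, tB, h]
    | g1 i => exact Or.inl ⟨.g3 i, rfl⟩
    | g2 i => exact Or.inl ⟨.t3 (D.R i), rfl⟩
    | g3 i => exact Or.inl ⟨.g1 i, rfl⟩
    | h1 j => exact Or.inl ⟨.t2 j, rfl⟩
    | h2 j => exact Or.inl ⟨.h3 j, rfl⟩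
    | h3 j => exact Or.inl ⟨.h2 j, rfl⟩
    | s1 k => exact Or.inl ⟨.s1 k, rfl⟩
    | s2 k => exact Or.inl ⟨.s2 k, rfl⟩
    | s3 k => exact Or.inl ⟨.s3 k, rfl⟩
    | j0 i => exact Or.inl ⟨.t1 i, rfl⟩
  · rintro (⟨t, rfl⟩ | ⟨i, rfl⟩)
    · cases t with
      | t1 i => exact ⟨.j0 i, rfl⟩
      | t2 j => exact ⟨.h1 j, rfl⟩
      | t3 k =>
        refine ⟨.g2 (D.R.symm k), ?_⟩
        simp [eA, tA, tB]
      | g1 i => exact ⟨.g3 i, rfl⟩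
      | g2 i =>
        refine ⟨.t3 (D.R i), ?_⟩
        simp [eA, tA, tB, D.hR i]
      | g3 i => exact ⟨.g1 i, rfl⟩
      | h1 j => exact ⟨.t2 j, rfl⟩
      | h2 j => exact ⟨.h3 j, rfl⟩
      | h3 j => exact ⟨.h2 j, rfl⟩
      | s1 k => exact ⟨.s1 k, rfl⟩
      | s2 k => exact ⟨.s2 k, rfl⟩
      | s3 k => exact ⟨.s3 k, rfl⟩
    · exact ⟨.t1 i, rfl⟩
  · rintro ⟨t, rfl⟩
    cases t with
    | t1 i =>
      refine Or.inl ⟨.h2 (D.Q.symm i), ?_⟩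
      have h := D.hQ (D.Q.symm i)
      rw [Equiv.apply_symm_apply] at h
      simp [eB, tA, tB, h]
    | t2 j => exact Or.inr ⟨j, rfl⟩
    | t3 k => exact Or.inl ⟨.s1 k, rfl⟩
    | g1 i => exact Or.inl ⟨.g1 i, rfl⟩
    | g2 i => exact Or.inl ⟨.g2 i, rfl⟩
    | g3 i => exact Or.inl ⟨.g3 i, rfl⟩
    | h1 j => exact Or.inl ⟨.h3 j, rfl⟩
    | h2 j => exact Or.inl ⟨.t1 (D.Q j), rfl⟩
    | h3 j => exact Or.inl ⟨.h1 j, rfl⟩
    | s1 k => exact Or.inl ⟨.t3 k, rfl⟩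
    | s2 k => exact Or.inl ⟨.s3 k, rfl⟩
    | s3 k => exact Or.inl ⟨.s2 k, rfl⟩
    | j0 i =>
      refine Or.inl ⟨.t2 (D.Q.symm i), ?_⟩
      simp [eB, tA, tB]
  · rintro (⟨t, rfl⟩ | ⟨i, rfl⟩)
    · cases t with
      | t1 i =>
        refine ⟨.h2 (D.Q.symm i), ?_⟩
        simp [eB, tA, tB]
      | t2 j => exact ⟨.j0 (D.Q j), rfl⟩
      | t3 k => exact ⟨.s1 k, rfl⟩
      | g1 i => exact ⟨.g1 i, rfl⟩
      | g2 i => exact ⟨.g2 i, rfl⟩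
      | g3 i => exact ⟨.g3 i, rfl⟩
      | h1 j => exact ⟨.h3 j, rfl⟩
      | h2 j =>
        refine ⟨.t1 (D.Q j), ?_⟩
        simp [eB, tA, tB, D.hQ j]
      | h3 j => exact ⟨.h1 j, rfl⟩
      | s1 k => exact ⟨.t3 k, rfl⟩
      | s2 k => exact ⟨.s3 k, rfl⟩
      | s3 k => exact ⟨.s2 k, rfl⟩
    · exact ⟨.t2 i, rfl⟩
  · rintro ⟨t, rfl⟩
    cases t with
    | t1 i => exact Or.inl ⟨.g1 i, rfl⟩
    | t2 j =>
      refine Or.inl ⟨.s2 (D.S.symm j), ?_⟩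
      have h := D.hS (D.S.symm j)
      rw [Equiv.apply_symm_apply] at h
      simp [eC, tA, tB, h]
    | t3 k => exact Or.inr ⟨k, rfl⟩
    | g1 i => exact Or.inl ⟨.t1 i, rfl⟩
    | g2 i => exact Or.inl ⟨.g3 i, rfl⟩
    | g3 i => exact Or.inl ⟨.g2 i, rfl⟩
    | h1 j => exact Or.inl ⟨.h1 j, rfl⟩
    | h2 j => exact Or.inl ⟨.h2 j, rfl⟩
    | h3 j => exact Or.inl ⟨.h3 j, rfl⟩
    | s1 k => exact Or.inl ⟨.s3 k, rfl⟩
    | s2 k => exact Or.inl ⟨.t2 (D.S k), rfl⟩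
    | s3 k => exact Or.inl ⟨.s1 k, rfl⟩
    | j0 i =>
      refine Or.inl ⟨.t3 (D.S.symm (D.Q.symm i)), ?_⟩
      simp [eC, tA, tB]
  · rintro (⟨t, rfl⟩ | ⟨i, rfl⟩)
    · cases t with
      | t1 i => exact ⟨.g1 i, rfl⟩
      | t2 j =>
        refine ⟨.s2 (D.S.symm j), ?_⟩
        simp [eC, tA, tB]
      | t3 k => exact ⟨.j0 (D.Q (D.S k)), rfl⟩
      | g1 i => exact ⟨.t1 i, rfl⟩
      | g2 i => exact ⟨.g3 i, rfl⟩
      | g3 i => exact ⟨.g2 i, rfl⟩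
      | h1 j => exact ⟨.h1 j, rfl⟩
      | h2 j => exact ⟨.h2 j, rfl⟩
      | h3 j => exact ⟨.h3 j, rfl⟩
      | s1 k => exact ⟨.s3 k, rfl⟩
      | s2 k =>
        refine ⟨.t2 (D.S k), ?_⟩
        simp [eC, tA, tB, D.hS k]
      | s3 k => exact ⟨.s1 k, rfl⟩
    · exact ⟨.t3 i, rfl⟩

end Pool.Agent.Helper72.IA24
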